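import Pool.Agent.helper4.NF.SpecB

/-!
# Project nf (MP_4467b5_nt), module CNT: counting
-/

set_option autoImplicit false

open Complex MeasureTheory

namespace Pool.Agent.NF

open Pool.Agent.helper84.DM Pool.Agent.helper78.ED Pool.Agent.DH Pool.Agent.ZD

/-- Pairs `(u, v)` with `p u - q v` small: at most `(2 H + 1) (K + 1)` pairs. -/
theorem CNT_pairs (A : Finset (ℕ × ℕ)) (p q K H : ℕ) (hq : 0 < q) (hpq : Nat.Coprime p q)
    (hA : ∀ w ∈ A, w.1 ≤ K * q ∧ |(p : ℤ) * w.1 - q * w.2| ≤ H) :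
    A.card ≤ (K + 1) * (2 * H + 1) := by
  classical
  have h1 : A.card ≤ (K + 1) * (A.image fun w => (p : ℤ) * w.1 - q * w.2).card := by
    refine Finset.card_le_mul_card_image A (K + 1) ?_
    intro j _
    have h2 : (A.filter fun w => (p : ℤ) * w.1 - q * w.2 = j).card ≤ (Finset.range (K + 1)).card := by
      refine Finset.card_le_card_of_injOn (fun w => w.1 / q) ?_ ?_
      · intro w hw
        rw [Finset.mem_coe, Finset.mem_filter] at hw
        have h3 := (hA w hw.1).1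
        simp only [Finset.coe_range, Set.mem_Iio]
        have h4 : w.1 / q ≤ K := by
          calc w.1 / q ≤ (K * q) / q := Nat.div_le_div_right h3
            _ = K := Nat.mul_div_cancel _ hq
        omega
      · intro w hw w' hw' heq
        rw [Finset.mem_coe, Finset.mem_filter] at hw hw'
        simp only at heq
        have h5 : (p : ℤ) * w.1 - q * w.2 = (p : ℤ) * w'.1 - q * w'.2 := by rw [hw.2, hw'.2]
        have h6 : (q : ℤ) ∣ (p : ℤ) * ((w.1 : ℤ) - w'.1) := ⟨(w.2 : ℤ) - w'.2, by linarith⟩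
        have h7 : IsCoprime (q : ℤ) (p : ℤ) := by
          rw [Int.isCoprime_iff_gcd_eq_one, Int.gcd_natCast_natCast]
          exact Nat.Coprime.symm hpq
        have h8 : (q : ℤ) ∣ (w.1 : ℤ) - w'.1 := h7.dvd_of_dvd_mul_left h6
        have h9 : w.1 = w'.1 := by
          have h10 : w.1 % q = w'.1 % q := by
            have : (w'.1 : ℤ) ≡ (w.1 : ℤ) [ZMOD q] := by
              rw [Int.modEq_iff_dvd]
              exact h8
            have h11 : w'.1 ≡ w.1 [MOD q] := by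
              exact_mod_cast this
            exact h11.symm
          have h12 := Nat.div_add_mod w.1 q
          have h13 := Nat.div_add_mod w'.1 q
          rw [← h12, ← h13, heq, h10]
        have h14 : w.2 = w'.2 := by
          rw [h9] at h5
          have h15 : (q : ℤ) * w.2 = q * w'.2 := by linarith
          have hq' : (q : ℤ) ≠ 0 := by exact_mod_cast hq.ne'
          have h16 := mul_left_cancel₀ hq' h15
          exact_mod_cast h16
        exact Prod.ext h9 h14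
    rw [Finset.card_range] at h2
    exact h2
  have h3 : (A.image fun w => (p : ℤ) * w.1 - q * w.2).card ≤ (Finset.Icc (-(H : ℤ)) H).card := by
    refine Finset.card_le_card ?_
    intro j hj
    rw [Finset.mem_image] at hj
    obtain ⟨w, hw, rfl⟩ := hj
    rw [Finset.mem_Icc]
    exact abs_le.mp (hA w hw).2
  have h4 : (Finset.Icc (-(H : ℤ)) H).card = 2 * H + 1 := by
    rw [Int.card_Icc]
    omega
  calc A.card ≤ (K + 1) * (A.image fun w => (p : ℤ) * w.1 - q * w.2).card := h1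
    _ ≤ (K + 1) * (2 * H + 1) := by
        refine Nat.mul_le_mul_left _ ?_
        rw [← h4]
        exact h3

/-- `|x - y| ≤ (e - 1) η y` if `|log x - log y| ≤ η ≤ 1` and `x, y > 0`. -/
theorem CNT_log (x y η : ℝ) (hx : 0 < x) (hy : 0 < y) (hη : η ≤ 1) (h : |Real.log x - Real.log y| ≤ η) :
    |x - y| ≤ 2 * η * y := by
  have hη0 : 0 ≤ η := le_trans (abs_nonneg _) h
  obtain ⟨t, ht⟩ : ∃ t, t = Real.log x - Real.log y := ⟨_, rfl⟩
  have hx2 : x = y * Real.exp t := by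
    rw [ht, Real.exp_sub, Real.exp_log hx, Real.exp_log hy]
    field_simp
  rw [← ht] at h
  have h1 : |Real.exp t - 1| ≤ 2 * |t| := by
    have ht1 : |t| ≤ 1 := le_trans h hη
    exact Real.abs_exp_sub_one_le ht1
  have h2 : x - y = y * (Real.exp t - 1) := by rw [hx2]; ring
  rw [h2, abs_mul, abs_of_pos hy]
  calc y * |Real.exp t - 1| ≤ y * (2 * |t|) := mul_le_mul_of_nonneg_left h1 hy.le
    _ ≤ y * (2 * η) := by
        refine mul_le_mul_of_nonneg_left ?_ hy.le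
        linarith
    _ = 2 * η * y := by ring

open Classical in
theorem CNT : CNT_stmt := by
  refine ⟨9 * 25600, by norm_num, ?_⟩
  intro N i η D p q hN hη hη1 hpq hd
  obtain ⟨S, hS⟩ : ∃ S, S = (((Finset.Ioc N (4 * N)) ×ˢ (Finset.Ioc N (4 * N))) ×ˢ RF N i).filter
    (fun z => |(Real.log p - Real.log q - Real.log z.1.1) -
      (Real.log z.2.1 - Real.log z.2.2 - Real.log z.1.2)| ≤ η) := ⟨_, rfl⟩
  rw [← hS]
  -- membership in `RF`
  have hRF : ∀ r : ℕ × ℕ, r ∈ RF N i → 1 ≤ r.1 ∧ r.1 ≤ 400 * N * 2 ^ (i + 1) ∧ 2 ^ i ≤ r.2 ∧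
      r.2 < 2 ^ (i + 1) ∧ Nat.Coprime r.1 r.2 := by
    intro r hr
    unfold RF at hr
    rw [Finset.mem_filter, Finset.mem_product, Finset.mem_Icc, Finset.mem_Ico] at hr
    exact ⟨hr.1.1.1, hr.1.1.2, hr.1.2.1, hr.1.2.2, hr.2.1⟩
  obtain ⟨hp1, hp2, hq1, hq2, hcop⟩ := hRF _ hpq
  simp only at hp1 hp2 hq1 hq2 hcop
  have h2i : 1 ≤ 2 ^ i := Nat.one_le_two_pow
  have hq0 : 0 < q := by omega
  obtain ⟨D', hD'⟩ : ∃ D' : ℕ, D' = ⌊D⌋₊ := ⟨_, rfl⟩
  have hdiv : ∀ k : ℕ, 1 ≤ k → k ≤ 3200 * N ^ 2 * 2 ^ i → k.divisors.card ≤ D' := by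
    intro k hk1 hk2
    rw [hD']
    apply Nat.le_floor
    exact hd k hk1 hk2
  -- the pair `(u, v)`
  have hmemS : ∀ z ∈ S, (N < z.1.1 ∧ z.1.1 ≤ 4 * N) ∧ (N < z.1.2 ∧ z.1.2 ≤ 4 * N) ∧ z.2 ∈ RF N i ∧
      |(Real.log p - Real.log q - Real.log z.1.1) -
      (Real.log z.2.1 - Real.log z.2.2 - Real.log z.1.2)| ≤ η := by
    intro z hz
    rw [hS, Finset.mem_filter, Finset.mem_product, Finset.mem_product, Finset.mem_Ioc,
      Finset.mem_Ioc] at hz
    exact ⟨hz.1.1.1, hz.1.1.2, hz.1.2, hz.2⟩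
  have hu : ∀ z ∈ S, 1 ≤ z.2.2 * z.1.2 ∧ z.2.2 * z.1.2 ≤ 8 * N * 2 ^ i := by
    intro z hz
    obtain ⟨h1, h2, h3, h4⟩ := hmemS z hz
    obtain ⟨h5, h6, h7, h8, h9⟩ := hRF _ h3
    constructor
    · exact Nat.mul_pos (by omega) (by omega)
    · calc z.2.2 * z.1.2 ≤ 2 ^ (i + 1) * (4 * N) := Nat.mul_le_mul h8.le h2.2
        _ = 8 * N * 2 ^ i := by ring
  have hv : ∀ z ∈ S, 1 ≤ z.2.1 * z.1.1 ∧ z.2.1 * z.1.1 ≤ 3200 * N ^ 2 * 2 ^ i := by
    intro z hz
    obtain ⟨h1, h2, h3, h4⟩ := hmemS z hz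
    obtain ⟨h5, h6, h7, h8, h9⟩ := hRF _ h3
    constructor
    · exact Nat.mul_pos (by omega) (by omega)
    · calc z.2.1 * z.1.1 ≤ 400 * N * 2 ^ (i + 1) * (4 * N) := Nat.mul_le_mul h6 h1.2
        _ = 3200 * N ^ 2 * 2 ^ i := by ring
  have hu' : ∀ z ∈ S, z.2.2 * z.1.2 ≤ 3200 * N ^ 2 * 2 ^ i := by
    intro z hz
    refine le_trans (hu z hz).2 (Nat.mul_le_mul_right _ ?_)
    nlinarith
  -- fibres of `z ↦ (u, v)`
  have h1 : S.card ≤ D' ^ 2 * (S.image fun z => (z.2.2 * z.1.2, z.2.1 * z.1.1)).card := by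
    refine Finset.card_le_mul_card_image S (D' ^ 2) ?_
    intro w hw
    rw [Finset.mem_image] at hw
    obtain ⟨z₀, hz₀, hw⟩ := hw
    have h2 : (S.filter fun z => (z.2.2 * z.1.2, z.2.1 * z.1.1) = w).card ≤
        (w.1.divisors ×ˢ w.2.divisors).card := by
      refine Finset.card_le_card_of_injOn (fun z => (z.2.2, z.2.1)) ?_ ?_
      · intro z hz
        rw [Finset.mem_coe, Finset.mem_filter] at hz
        rw [Finset.mem_coe, Finset.mem_product, Nat.mem_divisors, Nat.mem_divisors, ← hz.2]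
        have h3 := (hu z hz.1).1
        have h4 := (hv z hz.1).1
        refine ⟨⟨Dvd.intro _ rfl, ?_⟩, ⟨Dvd.intro _ rfl, ?_⟩⟩
        · simp only
          omega
        · simp only
          omega
      · intro z hz z' hz' heq
        rw [Finset.mem_coe, Finset.mem_filter] at hz hz'
        simp only [Prod.mk.injEq] at heq
        have h5 : (z.2.2 * z.1.2, z.2.1 * z.1.1) = (z'.2.2 * z'.1.2, z'.2.1 * z'.1.1) := by
          rw [hz.2, hz'.2]
        rw [Prod.mk.injEq] at h5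
        have h6 := (hu z hz.1).1
        have h7 := (hv z hz.1).1
        have h8 : 0 < z.2.2 := Nat.pos_of_mul_pos_right h6
        have h9 : 0 < z.2.1 := Nat.pos_of_mul_pos_right h7
        have h10 : z.1.2 = z'.1.2 := by
          have := h5.1
          rw [← heq.1] at this
          exact Nat.eq_of_mul_eq_mul_left h8 this
        have h11 : z.1.1 = z'.1.1 := by
          have := h5.2
          rw [← heq.2] at this
          exact Nat.eq_of_mul_eq_mul_left h9 this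
        exact Prod.ext (Prod.ext h11 h10) (Prod.ext heq.2 heq.1)
    refine le_trans h2 ?_
    rw [Finset.card_product, ← hw, sq]
    simp only
    exact Nat.mul_le_mul (hdiv _ (hu z₀ hz₀).1 (hu' z₀ hz₀)) (hdiv _ (hv z₀ hz₀).1 (hv z₀ hz₀).2)
  obtain ⟨H, hH⟩ : ∃ H : ℕ, H = ⌊12800 * η * N ^ 2 * 4 ^ i⌋₊ := ⟨_, rfl⟩
  have hH1 : (H : ℝ) ≤ 12800 * η * N ^ 2 * 4 ^ i := by
    rw [hH]
    exact Nat.floor_le (by positivity)
  have h2 : (S.image fun z => (z.2.2 * z.1.2, z.2.1 * z.1.1)).card ≤ (8 * N + 1) * (2 * H + 1) := by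
    refine CNT_pairs _ p q (8 * N) H hq0 hcop ?_
    intro w hw
    rw [Finset.mem_image] at hw
    obtain ⟨z, hz, rfl⟩ := hw
    obtain ⟨g1, g2, g3, g4⟩ := hmemS z hz
    obtain ⟨g5, g6, g7, g8, g9⟩ := hRF _ g3
    simp only
    constructor
    · refine le_trans (hu z hz).2 ?_
      exact Nat.mul_le_mul_left _ hq1
    · have e0 : (0 : ℝ) < p := by exact_mod_cast hp1
      have e1 : (0 : ℝ) < q := by exact_mod_cast hq0
      have e2 : (0 : ℝ) < z.2.1 := by exact_mod_cast g5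
      have e3 : (0 : ℝ) < z.2.2 := by
        have : 0 < z.2.2 := by omega
        exact_mod_cast this
      have e4 : (0 : ℝ) < z.1.1 := by
        have : 0 < z.1.1 := by omega
        exact_mod_cast this
      have e5 : (0 : ℝ) < z.1.2 := by
        have : 0 < z.1.2 := by omega
        exact_mod_cast this
      have e6 : Real.log ((p : ℝ) * (z.2.2 * z.1.2)) - Real.log ((q : ℝ) * (z.2.1 * z.1.1)) =
          (Real.log p - Real.log q - Real.log z.1.1) -
            (Real.log z.2.1 - Real.log z.2.2 - Real.log z.1.2) := by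
        rw [Real.log_mul e0.ne' (by positivity), Real.log_mul e3.ne' e5.ne',
          Real.log_mul e1.ne' (by positivity), Real.log_mul e2.ne' e4.ne']
        ring
      have e7 : |(p : ℝ) * (z.2.2 * z.1.2) - (q : ℝ) * (z.2.1 * z.1.1)| ≤
          2 * η * ((q : ℝ) * (z.2.1 * z.1.1)) := by
        refine CNT_log _ _ η (by positivity) (by positivity) hη1 ?_
        rw [e6]
        exact g4
      have e8 : (q : ℝ) * (z.2.1 * z.1.1) ≤ 6400 * N ^ 2 * 4 ^ i := by
        have e9 : (q : ℝ) ≤ 2 ^ (i + 1) := by exact_mod_cast hq2.le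
        have e10 : ((z.2.1 : ℝ) * z.1.1) ≤ 3200 * N ^ 2 * 2 ^ i := by exact_mod_cast (hv z hz).2
        calc (q : ℝ) * (z.2.1 * z.1.1) ≤ 2 ^ (i + 1) * (3200 * N ^ 2 * 2 ^ i) :=
              mul_le_mul e9 e10 (by positivity) (by positivity)
          _ = 6400 * N ^ 2 * 4 ^ i := by
              have : (4 : ℝ) ^ i = 2 ^ i * 2 ^ i := by rw [← mul_pow]; norm_num
              rw [this, pow_succ]
              ring
      have e11 : |(p : ℝ) * (z.2.2 * z.1.2) - (q : ℝ) * (z.2.1 * z.1.1)| ≤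
          12800 * η * N ^ 2 * 4 ^ i := by
        refine le_trans e7 ?_
        calc 2 * η * ((q : ℝ) * (z.2.1 * z.1.1)) ≤ 2 * η * (6400 * N ^ 2 * 4 ^ i) :=
              mul_le_mul_of_nonneg_left e8 (by positivity)
          _ = 12800 * η * N ^ 2 * 4 ^ i := by ring
      have e12 : (((|(p : ℤ) * ((z.2.2 * z.1.2 : ℕ) : ℤ) - q * ((z.2.1 * z.1.1 : ℕ) : ℤ)|).toNat : ℕ) : ℝ)
          ≤ 12800 * η * N ^ 2 * 4 ^ i := by
        have e13 : (((|(p : ℤ) * ((z.2.2 * z.1.2 : ℕ) : ℤ) -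
            q * ((z.2.1 * z.1.1 : ℕ) : ℤ)|).toNat : ℕ) : ℝ) =
            |(p : ℝ) * (z.2.2 * z.1.2) - (q : ℝ) * (z.2.1 * z.1.1)| := by
          have e14 : (((|(p : ℤ) * ((z.2.2 * z.1.2 : ℕ) : ℤ) -
            q * ((z.2.1 * z.1.1 : ℕ) : ℤ)|).toNat : ℕ) : ℤ) =
            |(p : ℤ) * ((z.2.2 * z.1.2 : ℕ) : ℤ) - q * ((z.2.1 * z.1.1 : ℕ) : ℤ)| :=
            Int.toNat_of_nonneg (abs_nonneg _)
          have e15 : (((|(p : ℤ) * ((z.2.2 * z.1.2 : ℕ) : ℤ) -
            q * ((z.2.1 * z.1.1 : ℕ) : ℤ)|).toNat : ℕ) : ℝ) =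
            ((|(p : ℤ) * ((z.2.2 * z.1.2 : ℕ) : ℤ) - q * ((z.2.1 * z.1.1 : ℕ) : ℤ)| : ℤ) : ℝ) := by
            rw [← e14]
            push_cast
            rfl
          rw [e15]
          push_cast
          rfl
        rw [e13]
        exact e11
      have e16 := Nat.le_floor e12
      rw [← hH] at e16
      have e17 := Int.self_le_toNat (|(p : ℤ) * ((z.2.2 * z.1.2 : ℕ) : ℤ) -
            q * ((z.2.1 * z.1.1 : ℕ) : ℤ)|)
      refine le_trans e17 ?_
      exact_mod_cast e16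
  have hD0 : 0 ≤ D := by
    have := hd 1 le_rfl (by
      have : 0 < 3200 * N ^ 2 * 2 ^ i := by positivity
      omega)
    refine le_trans ?_ this
    unfold d
    positivity
  have hDr : (D' : ℝ) ≤ D := by rw [hD']; exact Nat.floor_le hD0
  have h3 : S.card ≤ D' ^ 2 * ((8 * N + 1) * (2 * H + 1)) := le_trans h1 (Nat.mul_le_mul_left _ h2)
  have h4 : (S.card : ℝ) ≤ (D' : ℝ) ^ 2 * ((8 * N + 1) * (2 * H + 1)) := by exact_mod_cast h3
  have hNr : (1 : ℝ) ≤ N := by exact_mod_cast hN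
  have h5 : (8 * (N : ℝ) + 1) * (2 * H + 1) ≤ 9 * 25600 * N * (1 + η * (N : ℝ) ^ 2 * 4 ^ i) := by
    have h6 : 8 * (N : ℝ) + 1 ≤ 9 * N := by linarith
    have h7 : 2 * (H : ℝ) + 1 ≤ 25600 * (1 + η * (N : ℝ) ^ 2 * 4 ^ i) := by linarith
    calc (8 * (N : ℝ) + 1) * (2 * H + 1) ≤ (9 * N) * (25600 * (1 + η * (N : ℝ) ^ 2 * 4 ^ i)) :=
          mul_le_mul h6 h7 (by positivity) (by positivity)
      _ = 9 * 25600 * N * (1 + η * (N : ℝ) ^ 2 * 4 ^ i) := by ring
  calc (S.card : ℝ) ≤ (D' : ℝ) ^ 2 * ((8 * N + 1) * (2 * H + 1)) := h4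
    _ ≤ D ^ 2 * (9 * 25600 * N * (1 + η * (N : ℝ) ^ 2 * 4 ^ i)) := by
        refine mul_le_mul ?_ h5 (by positivity) (by positivity)
        exact pow_le_pow_left₀ (by positivity) hDr 2
    _ = 9 * 25600 * D ^ 2 * N * (1 + η * (N : ℝ) ^ 2 * 4 ^ i) := by ring

end Pool.Agent.NF
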